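import Mathlib

set_option autoImplicit false

namespace Pool.Agent.Results.MP_72856e_co.Q1
open Finset

variable {V : Type} [Fintype V] [DecidableEq V]

/-- a clique: a maximal complete vertex set -/
def MaxClique (G : SimpleGraph V) (Q : Finset V) : Prop :=
  Maximal (fun S : Finset V => G.IsClique (S : Set V)) Q

/-- the clique graph `K(G)` -/
def cliqueGraph (G : SimpleGraph V) : SimpleGraph {Q : Finset V // MaxClique G Q} where
  Adj P Q := P ≠ Q ∧ (P.1 ∩ Q.1).Nonempty
  symm := ⟨fun _ _ h => ⟨h.1.symm, by rw [inter_comm]; exact h.2⟩⟩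
  loopless := ⟨fun _ h => h.1 rfl⟩

def Dominating (G : SimpleGraph V) (D : Finset V) : Prop :=
  ∀ v, v ∉ D → ∃ u ∈ D, G.Adj v u

/-- the domatic number: the largest number of parts of a partition into dominating sets -/
noncomputable def domatic (G : SimpleGraph V) : ℕ :=
  sSup {k | ∃ P : Finpartition (univ : Finset V), P.parts.card = k ∧ ∀ D ∈ P.parts, Dominating G D}

/-- `c(G)`: the least order of a maximal clique -/
noncomputable def minClique (G : SimpleGraph V) : ℕ :=
  sInf {k | ∃ Q : Finset V, MaxClique G Q ∧ Q.card = k}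

abbrev W := Fin 5 × Fin 4

def Q (i : Fin 5) : Finset W := univ.filter (fun v => v.1 = i ∨ (v.1 + 1 = i ∧ v.2 ≠ 0))

def G0 : SimpleGraph W where
  Adj u v := u ≠ v ∧ ∃ i, u ∈ Q i ∧ v ∈ Q i
  symm := ⟨fun _ _ h => ⟨h.1.symm, h.2.imp fun _ h => h.symm⟩⟩
  loopless := ⟨fun _ h => h.1 rfl⟩

instance : DecidableRel G0.Adj := fun u v =>
  inferInstanceAs (Decidable (u ≠ v ∧ ∃ i, u ∈ Q i ∧ v ∈ Q i))

lemma Q_clique (i : Fin 5) : G0.IsClique (Q i : Set W) :=
  fun _ hu _ hv h => ⟨h, i, hu, hv⟩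

lemma priv (i : Fin 5) (v : W) (h : G0.Adj (i, 0) v) : v ∈ Q i := by
  revert i v; decide

lemma sub_Q (S : Finset W) (hS : G0.IsClique (S : Set W)) : ∃ i, S ⊆ Q i := by
  by_contra hn
  push Not at hn
  have h : ∀ i, ∃ v ∈ S, v ∉ Q i := fun i => not_subset.1 (hn i)
  obtain ⟨u, hu, hu'⟩ := h 0
  obtain ⟨v, hv, hv'⟩ := h u.1
  obtain ⟨w, hw, hw'⟩ := h (u.1 + 1)
  have a : u = v ∨ G0.Adj u v := by
    by_cases e : u = v
    · exact Or.inl e
    · exact Or.inr (hS hu hv e)
  have b : u = w ∨ G0.Adj u w := by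
    by_cases e : u = w
    · exact Or.inl e
    · exact Or.inr (hS hu hw e)
  have c : v = w ∨ G0.Adj v w := by
    by_cases e : v = w
    · exact Or.inl e
    · exact Or.inr (hS hv hw e)
  have key : ∀ u v : W, (u = v ∨ G0.Adj u v) → v ∉ Q u.1 → ∀ w : W, (u = w ∨ G0.Adj u w) →
      w ∉ Q (u.1 + 1) → ¬ (v = w ∨ G0.Adj v w) := by decide +kernel
  exact key u v a hv' w b hw' c

lemma Q_max (i : Fin 5) : MaxClique G0 (Q i) := by
  refine ⟨Q_clique i, fun S hS h v hv => ?_⟩
  have hi : ((i, 0) : W) ∈ Q i := by simp [Q]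
  by_cases e : ((i, 0) : W) = v
  · exact e ▸ hi
  · exact priv i v (hS (h hi) hv e)

lemma max_Q (S : Finset W) (h : MaxClique G0 S) : ∃ i, Q i = S := by
  obtain ⟨i, hi⟩ := sub_Q S h.1
  exact ⟨i, Subset.antisymm (h.2 (Q_clique i) hi) hi⟩

lemma Q_inj : Function.Injective Q := by decide +kernel

theorem result : ∃ (V : Type) (_ : Fintype V) (_ : DecidableEq V) (G : SimpleGraph V) (n : ℕ),
    3 ≤ n ∧ Odd n ∧ Nonempty (cliqueGraph G ≃g SimpleGraph.cycleGraph n) ∧
    domatic G < minClique G := by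
  refine ⟨W, inferInstance, inferInstance, G0, 5, by norm_num, by decide, ?_, ?_⟩
  · let f : Fin 5 → {Q : Finset W // MaxClique G0 Q} := fun i => ⟨Q i, Q_max i⟩
    have hf : Function.Bijective f :=
      ⟨fun i j h => Q_inj (congrArg Subtype.val h), fun S => by
        obtain ⟨i, hi⟩ := max_Q S.1 S.2
        exact ⟨i, Subtype.ext hi⟩⟩
    refine ⟨SimpleGraph.Iso.symm ⟨Equiv.ofBijective f hf, ?_⟩⟩
    intro i j
    show (f i ≠ f j ∧ (Q i ∩ Q j).Nonempty) ↔ _
    rw [hf.1.ne_iff]
    revert i j; decide +kernel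
  · have h7 : minClique G0 = 7 := by
      have : {k | ∃ Q : Finset W, MaxClique G0 Q ∧ Q.card = k} = {7} := by
        have hc : ∀ i, (Q i).card = 7 := by decide +kernel
        ext k
        constructor
        · rintro ⟨S, hS, rfl⟩
          obtain ⟨i, rfl⟩ := max_Q S hS
          exact hc i
        · rintro rfl
          exact ⟨Q 0, Q_max 0, hc 0⟩
      unfold minClique
      rw [this, csInf_singleton]
    rw [h7]
    refine lt_of_le_of_lt (csSup_le' (a := 6) ?_) (by norm_num)
    rintro k ⟨P, rfl, hP⟩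
    have h3 : ∀ D ∈ P.parts, 3 ≤ D.card := by
      intro D hD
      have hit : ∀ i, ∃ v ∈ D, v ∈ Q i := by
        intro i
        by_cases e : ((i, 0) : W) ∈ D
        · exact ⟨_, e, by simp [Q]⟩
        · obtain ⟨u, hu, ha⟩ := hP D hD _ e
          exact ⟨u, hu, priv i u ha⟩
      have : (univ : Finset (Fin 5)) ⊆ D.biUnion (fun v => {v.1, v.1 + 1}) := by
        intro i _
        obtain ⟨v, hv, hq⟩ := hit i
        refine mem_biUnion.2 ⟨v, hv, ?_⟩
        rcases (mem_filter.1 hq).2 with h | h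
        · simp [h]
        · simp [h.1]
      have h1 := (card_le_card this).trans
        (card_biUnion_le_card_mul D _ 2 (fun v _ => card_le_two))
      simp at h1
      omega
    have hs : P.parts.sum card = 20 := P.sum_card_parts
    have := card_nsmul_le_sum P.parts card 3 h3
    rw [hs, smul_eq_mul] at this
    omega

end Pool.Agent.Results.MP_72856e_co.Q1
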